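import Mathlib

set_option autoImplicit false

open MeasureTheory Set

namespace Pool.Agent.Results.MP_75b936_an.SelfIntegrating

/-- Formal rational combinations of a family of generators indexed by `ι`: expressions built from
the generators alone by additions, subtractions, multiplications and divisions. -/
inductive RatComb (ι : Type) : Type
  | gen (i : ι) : RatComb ι
  | add (a b : RatComb ι) : RatComb ι
  | sub (a b : RatComb ι) : RatComb ι
  | mul (a b : RatComb ι) : RatComb ι
  | div (a b : RatComb ι) : RatComb ι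
  deriving Encodable

namespace RatComb

variable {ι : Type}

/-- The function given by a rational combination of the functions `g i`. -/
noncomputable def value (g : ι → ℝ → ℝ) : RatComb ι → ℝ → ℝ
  | gen i, x => g i x
  | add a b, x => value g a x + value g b x
  | sub a b, x => value g a x - value g b x
  | mul a b, x => value g a x * value g b x
  | div a b, x => value g a x / value g b x

/-- None of the denominators used in the rational combination vanishes at `x`. -/
def DefinedAt (g : ι → ℝ → ℝ) : RatComb ι → ℝ → Prop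
  | gen _, _ => True
  | add a b, x => DefinedAt g a x ∧ DefinedAt g b x
  | sub a b, x => DefinedAt g a x ∧ DefinedAt g b x
  | mul a b, x => DefinedAt g a x ∧ DefinedAt g b x
  | div a b, x => DefinedAt g a x ∧ DefinedAt g b x ∧ value g b x ≠ 0

/-- numerator and denominator as polynomial functions of the generators -/
noncomputable def nd : RatComb ι → (ι → ℝ) → ℝ × ℝ
  | gen i, v => (v i, 1)
  | add a b, v => ((nd a v).1 * (nd b v).2 + (nd b v).1 * (nd a v).2, (nd a v).2 * (nd b v).2)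
  | sub a b, v => ((nd a v).1 * (nd b v).2 - (nd b v).1 * (nd a v).2, (nd a v).2 * (nd b v).2)
  | mul a b, v => ((nd a v).1 * (nd b v).1, (nd a v).2 * (nd b v).2)
  | div a b, v => ((nd a v).1 * ((nd b v).2 * (nd b v).2), (nd a v).2 * ((nd b v).2 * (nd b v).1))

lemma nd_spec (g : ι → ℝ → ℝ) (e : RatComb ι) (x : ℝ) :
    (DefinedAt g e x ↔ (nd e (fun i => g i x)).2 ≠ 0) ∧
    (DefinedAt g e x → value g e x = (nd e (fun i => g i x)).1 / (nd e (fun i => g i x)).2) := by
  induction e with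
  | gen i => simp [DefinedAt, nd, value]
  | add a b iha ihb =>
    refine ⟨?_, ?_⟩
    · simp only [DefinedAt, nd, mul_ne_zero_iff]
      rw [iha.1, ihb.1]
    · rintro ⟨ha, hb⟩
      have ha' := iha.1.mp ha
      have hb' := ihb.1.mp hb
      simp only [value, nd]
      rw [iha.2 ha, ihb.2 hb]
      field_simp
  | sub a b iha ihb =>
    refine ⟨?_, ?_⟩
    · simp only [DefinedAt, nd, mul_ne_zero_iff]
      rw [iha.1, ihb.1]
    · rintro ⟨ha, hb⟩
      have ha' := iha.1.mp ha
      have hb' := ihb.1.mp hb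
      simp only [value, nd]
      rw [iha.2 ha, ihb.2 hb]
      field_simp
  | mul a b iha ihb =>
    refine ⟨?_, ?_⟩
    · simp only [DefinedAt, nd, mul_ne_zero_iff]
      rw [iha.1, ihb.1]
    · rintro ⟨ha, hb⟩
      have ha' := iha.1.mp ha
      have hb' := ihb.1.mp hb
      simp only [value, nd]
      rw [iha.2 ha, ihb.2 hb]
      field_simp
  | div a b iha ihb =>
    have key : DefinedAt g b x → (value g b x ≠ 0 ↔ (nd b (fun i => g i x)).1 ≠ 0) := by
      intro hb
      rw [ihb.2 hb, div_ne_zero_iff]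
      have := ihb.1.mp hb
      tauto
    refine ⟨?_, ?_⟩
    · simp only [DefinedAt, nd, mul_ne_zero_iff]
      constructor
      · rintro ⟨ha, hb, hc⟩
        exact ⟨iha.1.mp ha, ihb.1.mp hb, (key hb).mp hc⟩
      · rintro ⟨ha, hb, hc⟩
        have hb' := ihb.1.mpr hb
        exact ⟨iha.1.mpr ha, hb', (key hb').mpr hc⟩
    · rintro ⟨ha, hb, hc⟩
      have ha' := iha.1.mp ha
      have hb' := ihb.1.mp hb
      have hc' := (key hb).mp hc
      simp only [value, nd]
      rw [iha.2 ha, ihb.2 hb]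
      field_simp

lemma nd_cont (v : ℝ → ι → ℝ) (hv : ∀ i, Continuous fun t => v t i) (e : RatComb ι) :
    Continuous (fun t => (nd e (v t)).1) ∧ Continuous (fun t => (nd e (v t)).2) := by
  induction e with
  | gen i => exact ⟨hv i, continuous_const⟩
  | add a b iha ihb =>
    obtain ⟨h1, h2⟩ := iha
    obtain ⟨h3, h4⟩ := ihb
    simp only [nd]
    exact ⟨(h1.mul h4).add (h3.mul h2), h2.mul h4⟩
  | sub a b iha ihb =>
    obtain ⟨h1, h2⟩ := iha
    obtain ⟨h3, h4⟩ := ihb
    simp only [nd]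
    exact ⟨(h1.mul h4).sub (h3.mul h2), h2.mul h4⟩
  | mul a b iha ihb =>
    obtain ⟨h1, h2⟩ := iha
    obtain ⟨h3, h4⟩ := ihb
    simp only [nd]
    exact ⟨h1.mul h3, h2.mul h4⟩
  | div a b iha ihb =>
    obtain ⟨h1, h2⟩ := iha
    obtain ⟨h3, h4⟩ := ihb
    simp only [nd]
    exact ⟨h1.mul (h4.mul h4), h2.mul (h4.mul h3)⟩

/-- bounded and Lipschitz on the cube -/
def BL (P : (ι → ℝ) → ℝ) : Prop :=
  ∃ C : ℝ, 0 ≤ C ∧ (∀ v : ι → ℝ, (∀ i, |v i| ≤ 1) → |P v| ≤ C) ∧
    ∀ (v w : ι → ℝ) (η : ℝ), (∀ i, |v i| ≤ 1) → (∀ i, |w i| ≤ 1) → (∀ i, |v i - w i| ≤ η) →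
      0 ≤ η → |P v - P w| ≤ C * η

lemma BL.mul {P Q : (ι → ℝ) → ℝ} (hP : BL P) (hQ : BL Q) : BL (fun v => P v * Q v) := by
  obtain ⟨C, hC, h1, h2⟩ := hP
  obtain ⟨D, hD, h3, h4⟩ := hQ
  refine ⟨2 * (C * D) + C * D, by positivity, ?_, ?_⟩
  · intro v hv
    rw [abs_mul]
    calc |P v| * |Q v| ≤ C * D := mul_le_mul (h1 v hv) (h3 v hv) (abs_nonneg _) hC
      _ ≤ 2 * (C * D) + C * D := by nlinarith [mul_nonneg hC hD]
  · intro v w η hv hw hvw hη
    have e : P v * Q v - P w * Q w = P v * (Q v - Q w) + (P v - P w) * Q w := by ring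
    rw [e]
    refine (abs_add_le _ _).trans ?_
    rw [abs_mul, abs_mul]
    have a1 : |P v| * |Q v - Q w| ≤ C * (D * η) :=
      mul_le_mul (h1 v hv) (h4 v w η hv hw hvw hη) (abs_nonneg _) hC
    have a2 : |P v - P w| * |Q w| ≤ (C * η) * D :=
      mul_le_mul (h2 v w η hv hw hvw hη) (h3 w hw) (abs_nonneg _) (by positivity)
    nlinarith [mul_nonneg (mul_nonneg hC hD) hη]

lemma BL.add {P Q : (ι → ℝ) → ℝ} (hP : BL P) (hQ : BL Q) : BL (fun v => P v + Q v) := by
  obtain ⟨C, hC, h1, h2⟩ := hP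
  obtain ⟨D, hD, h3, h4⟩ := hQ
  refine ⟨C + D, by positivity, ?_, ?_⟩
  · intro v hv
    exact (abs_add_le _ _).trans (add_le_add (h1 v hv) (h3 v hv))
  · intro v w η hv hw hvw hη
    have e : P v + Q v - (P w + Q w) = (P v - P w) + (Q v - Q w) := by ring
    rw [e, add_mul]
    exact (abs_add_le _ _).trans (add_le_add (h2 v w η hv hw hvw hη) (h4 v w η hv hw hvw hη))

lemma BL.sub {P Q : (ι → ℝ) → ℝ} (hP : BL P) (hQ : BL Q) : BL (fun v => P v - Q v) := by
  obtain ⟨C, hC, h1, h2⟩ := hP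
  obtain ⟨D, hD, h3, h4⟩ := hQ
  refine ⟨C + D, by positivity, ?_, ?_⟩
  · intro v hv
    exact (abs_sub _ _).trans (add_le_add (h1 v hv) (h3 v hv))
  · intro v w η hv hw hvw hη
    have e : P v - Q v - (P w - Q w) = (P v - P w) - (Q v - Q w) := by ring
    rw [e, add_mul]
    exact (abs_sub _ _).trans (add_le_add (h2 v w η hv hw hvw hη) (h4 v w η hv hw hvw hη))

lemma nd_BL (e : RatComb ι) : BL (fun v => (nd e v).1) ∧ BL (fun v => (nd e v).2) := by
  induction e with
  | gen i =>
    refine ⟨⟨1, zero_le_one, fun v hv => hv i, fun v w η _ _ h _ => by simpa [nd] using h i⟩,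
      ⟨1, zero_le_one, fun v _ => by simp [nd], fun v w η _ _ _ hη => by simpa [nd] using hη⟩⟩
  | add a b iha ihb =>
    exact ⟨(iha.1.mul ihb.2).add (ihb.1.mul iha.2), iha.2.mul ihb.2⟩
  | sub a b iha ihb =>
    exact ⟨(iha.1.mul ihb.2).sub (ihb.1.mul iha.2), iha.2.mul ihb.2⟩
  | mul a b iha ihb =>
    exact ⟨iha.1.mul ihb.1, iha.2.mul ihb.2⟩
  | div a b iha ihb =>
    exact ⟨iha.1.mul (ihb.2.mul ihb.2), iha.2.mul (ihb.2.mul ihb.1)⟩

end RatComb

/-- least absolute value of `D` between `q` and `y` -/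
noncomputable def mar (D : ℝ → ℝ) (q y : ℝ) : ℝ :=
  sInf ((fun s : ℝ => |D (q + s * (y - q))|) '' Icc (0 : ℝ) 1)

/-- primitive of `N / D` from `q` -/
noncomputable def prim (N D : ℝ → ℝ) (q y : ℝ) : ℝ := ∫ t in q..y, N t / D t

/-- bounded encodings of a number `F` as a quotient -/
noncomputable def enc (b : Bool) (F : ℝ) : ℝ := (if b then F else 1) / (1 + F ^ 2)

/-- the coding function -/
noncomputable def code (b : Bool) (N D : ℝ → ℝ) (q y : ℝ) : ℝ :=
  (1 / (1 + |y|) ^ 2) * ((mar D q y) ^ 2 * enc b (prim N D q y))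

lemma enc_abs (b : Bool) (F : ℝ) : |enc b F| ≤ 1 := by
  unfold enc
  have h : (0 : ℝ) < 1 + F ^ 2 := by positivity
  rw [abs_div, abs_of_pos h, div_le_one h]
  cases b
  · simp; positivity
  · simp only [if_true]
    rw [abs_le]
    constructor <;> nlinarith [sq_nonneg (F - 1), sq_nonneg (F + 1)]

lemma enc_lip (b : Bool) (x y : ℝ) : |enc b x - enc b y| ≤ |x - y| := by
  unfold enc
  have h1 : (0 : ℝ) < 1 + x ^ 2 := by positivity
  have h2 : (0 : ℝ) < 1 + y ^ 2 := by positivity
  have h3 : (0 : ℝ) < (1 + x ^ 2) * (1 + y ^ 2) := mul_pos h1 h2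
  cases b
  · have e : (if false = true then x else 1) / (1 + x ^ 2) - (if false = true then y else 1) / (1 + y ^ 2)
        = (x - y) * (-(x + y) / ((1 + x ^ 2) * (1 + y ^ 2))) := by
      simp only [Bool.false_eq_true, if_false]
      field_simp
      ring
    rw [e, abs_mul]
    refine mul_le_of_le_one_right (abs_nonneg _) ?_
    rw [abs_div, abs_of_pos h3, div_le_one h3, abs_le]
    constructor <;> nlinarith [sq_nonneg (x - 1), sq_nonneg (x + 1), sq_nonneg (y - 1),
      sq_nonneg (y + 1), sq_nonneg (x * y), sq_nonneg (x + y)]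
  · have e : (if true = true then x else 1) / (1 + x ^ 2) - (if true = true then y else 1) / (1 + y ^ 2)
        = (x - y) * ((1 - x * y) / ((1 + x ^ 2) * (1 + y ^ 2))) := by
      simp only [if_true]
      field_simp
      ring
    rw [e, abs_mul]
    refine mul_le_of_le_one_right (abs_nonneg _) ?_
    rw [abs_div, abs_of_pos h3, div_le_one h3, abs_le]
    constructor <;> nlinarith [sq_nonneg (x - y), sq_nonneg (x + y), sq_nonneg (x * y)]

lemma enc_cont (b : Bool) : Continuous (enc b) := by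
  unfold enc
  apply Continuous.div
  · cases b
    · simp only [Bool.false_eq_true, if_false]; exact continuous_const
    · simp only [if_true]; exact continuous_id
  · fun_prop
  · intro x; positivity

lemma enc_ratio (F : ℝ) : enc false F ≠ 0 ∧ enc true F / enc false F = F := by
  have h1 : (0 : ℝ) < 1 + F ^ 2 := by positivity
  constructor
  · unfold enc
    simp only [Bool.false_eq_true, if_false]
    positivity
  · unfold enc
    simp only [Bool.false_eq_true, if_false, if_true]
    field_simp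

section mar

variable {D : ℝ → ℝ} (hD : Continuous D)

lemma mar_nonneg (D : ℝ → ℝ) (q y : ℝ) : 0 ≤ mar D q y := by
  unfold mar
  apply Real.sInf_nonneg
  rintro _ ⟨s, _, rfl⟩
  exact abs_nonneg _

lemma mar_le (D : ℝ → ℝ) {q y t : ℝ} (ht : t ∈ uIcc q y) : mar D q y ≤ |D t| := by
  have hb : BddBelow ((fun s : ℝ => |D (q + s * (y - q))|) '' Icc (0 : ℝ) 1) :=
    ⟨0, by rintro _ ⟨s, _, rfl⟩; exact abs_nonneg _⟩
  obtain ⟨s, hs, hst⟩ : ∃ s ∈ Icc (0 : ℝ) 1, q + s * (y - q) = t := by
    by_cases hqy : y = q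
    · subst hqy
      rw [uIcc_self, mem_singleton_iff] at ht
      exact ⟨0, ⟨le_rfl, zero_le_one⟩, by rw [ht]; ring⟩
    · have hne : y - q ≠ 0 := sub_ne_zero.mpr hqy
      refine ⟨(t - q) / (y - q), ?_, by field_simp; ring⟩
      rcases le_total q y with hle | hle
      · rw [uIcc_of_le hle] at ht
        have hpos : 0 < y - q := lt_of_le_of_ne (by linarith) (Ne.symm hne)
        exact ⟨div_nonneg (by linarith [ht.1]) hpos.le, (div_le_one hpos).mpr (by linarith [ht.2])⟩
      · rw [uIcc_of_ge hle] at ht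
        have hneg : y - q < 0 := lt_of_le_of_ne (by linarith) hne
        exact ⟨div_nonneg_of_nonpos (by linarith [ht.2]) hneg.le,
          (div_le_one_of_neg hneg).mpr (by linarith [ht.1])⟩
  unfold mar
  exact csInf_le hb ⟨s, hs, by simp only [hst]⟩

lemma mem_uIcc_param {q y s : ℝ} (hs : s ∈ Icc (0 : ℝ) 1) : q + s * (y - q) ∈ uIcc q y := by
  rw [mem_uIcc]
  rcases le_total q y with hle | hle
  · left
    constructor <;> nlinarith [hs.1, hs.2]
  · right
    constructor <;> nlinarith [hs.1, hs.2]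

include hD in
lemma mar_cont (q : ℝ) : Continuous (mar D q) := by
  unfold mar
  apply IsCompact.continuous_sInf isCompact_Icc
  show Continuous (fun p : ℝ × ℝ => |D (q + p.2 * (p.1 - q))|)
  fun_prop

include hD in
lemma mar_pos {q y : ℝ} (h : ∀ t ∈ uIcc q y, D t ≠ 0) : 0 < mar D q y := by
  have hne : ((fun s : ℝ => |D (q + s * (y - q))|) '' Icc (0 : ℝ) 1).Nonempty :=
    ⟨_, ⟨0, ⟨le_rfl, zero_le_one⟩, rfl⟩⟩
  have hc : Continuous (fun s : ℝ => |D (q + s * (y - q))|) := by fun_prop
  have hcomp := isCompact_Icc.image (f := fun s : ℝ => |D (q + s * (y - q))|) (s := Icc (0 : ℝ) 1) hc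
  obtain ⟨s, hs, hs2⟩ := hcomp.sInf_mem hne
  unfold mar
  rw [← hs2]
  exact abs_pos.mpr (h _ (mem_uIcc_param hs))

lemma mar_lip {D E : ℝ → ℝ} {η : ℝ} (h : ∀ t, |D t - E t| ≤ η) (q y : ℝ) :
    |mar D q y - mar E q y| ≤ η := by
  have key : ∀ D E : ℝ → ℝ, (∀ t, |D t - E t| ≤ η) → mar D q y - η ≤ mar E q y := by
    intro D E h
    have hne : ((fun s : ℝ => |E (q + s * (y - q))|) '' Icc (0 : ℝ) 1).Nonempty :=
      ⟨_, ⟨0, ⟨le_rfl, zero_le_one⟩, rfl⟩⟩
    refine le_csInf hne ?_
    rintro _ ⟨s, hs, rfl⟩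
    have h1 := mar_le D (mem_uIcc_param (q := q) (y := y) hs)
    have h2 := h (q + s * (y - q))
    have h3 := abs_sub_abs_le_abs_sub (D (q + s * (y - q))) (E (q + s * (y - q)))
    simp only []
    linarith
  have a1 := key D E h
  have a2 := key E D (fun t => by rw [abs_sub_comm]; exact h t)
  rw [abs_le]
  constructor <;> linarith

end mar

lemma ne_of_mar_pos {D : ℝ → ℝ} {q y : ℝ} (h : 0 < mar D q y) : ∀ t ∈ uIcc q y, D t ≠ 0 := by
  intro t ht h0
  have := mar_le D ht
  rw [h0, abs_zero] at this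
  linarith

lemma quot_int {N D : ℝ → ℝ} (hN : Continuous N) (hD : Continuous D) {q y : ℝ}
    (h : ∀ t ∈ uIcc q y, D t ≠ 0) : IntervalIntegrable (fun t => N t / D t) volume q y :=
  (hN.continuousOn.div hD.continuousOn h).intervalIntegrable

lemma prim_hasDeriv {N D : ℝ → ℝ} (hN : Continuous N) (hD : Continuous D) {q y : ℝ}
    (h : ∀ t ∈ uIcc q y, D t ≠ 0) : HasDerivAt (prim N D q) (N y / D y) y := by
  unfold prim
  apply intervalIntegral.integral_hasDerivAt_right (quot_int hN hD h)
  · exact (hN.measurable.div hD.measurable).stronglyMeasurable.stronglyMeasurableAtFilter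
  · exact hN.continuousAt.div hD.continuousAt (h y right_mem_uIcc)

lemma w_bound (y : ℝ) : 0 < 1 / (1 + |y|) ^ 2 ∧ 1 / (1 + |y|) ^ 2 ≤ 1 / (1 + |y|) := by
  have h := abs_nonneg y
  refine ⟨by positivity, ?_⟩
  apply one_div_le_one_div_of_le (by positivity)
  nlinarith

lemma mar_le_const {D : ℝ → ℝ} {C : ℝ} (hDC : ∀ t, |D t| ≤ C) (q y : ℝ) : mar D q y ≤ C :=
  (mar_le D left_mem_uIcc).trans (hDC q)

lemma code_bound (b : Bool) {N D : ℝ → ℝ} {C : ℝ} (hDC : ∀ t, |D t| ≤ C) (q y : ℝ) :
    |code b N D q y| ≤ C ^ 2 / (1 + |y|) := by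
  unfold code
  have h1 := w_bound y
  have h2 := mar_nonneg D q y
  have h3 := mar_le_const hDC q y
  have h4 := enc_abs b (prim N D q y)
  rw [abs_mul, abs_mul, abs_of_pos h1.1, abs_of_nonneg (by positivity : 0 ≤ mar D q y ^ 2)]
  have h5 : mar D q y ^ 2 * |enc b (prim N D q y)| ≤ C ^ 2 := by
    have : mar D q y ^ 2 ≤ C ^ 2 := by gcongr
    calc mar D q y ^ 2 * |enc b (prim N D q y)| ≤ C ^ 2 * 1 :=
          mul_le_mul this h4 (abs_nonneg _) (by positivity)
      _ = C ^ 2 := mul_one _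
  calc 1 / (1 + |y|) ^ 2 * (mar D q y ^ 2 * |enc b (prim N D q y)|)
      ≤ 1 / (1 + |y|) * C ^ 2 := mul_le_mul h1.2 h5 (by positivity) (by positivity)
    _ = C ^ 2 / (1 + |y|) := by ring

lemma code_cont (b : Bool) {N D : ℝ → ℝ} (hN : Continuous N) (hD : Continuous D) (q : ℝ) :
    Continuous (code b N D q) := by
  unfold code
  apply Continuous.mul
  · apply Continuous.div continuous_const (by fun_prop)
    intro y
    have := abs_nonneg y
    positivity
  · rw [continuous_iff_continuousAt]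
    intro y
    rcases (mar_nonneg D q y).eq_or_lt with h0 | hpos
    · -- value zero: squeeze
      have hz : (mar D q y) ^ 2 * enc b (prim N D q y) = 0 := by rw [← h0]; ring
      show Filter.Tendsto _ _ (nhds (mar D q y ^ 2 * enc b (prim N D q y)))
      rw [hz]
      have hlim : Filter.Tendsto (fun z => (mar D q z) ^ 2) (nhds y) (nhds 0) := by
        have := ((mar_cont hD q).tendsto y).pow 2
        rw [← h0] at this
        simpa using this
      apply squeeze_zero_norm _ hlim
      intro z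
      rw [Real.norm_eq_abs, abs_mul, abs_of_nonneg (by positivity : 0 ≤ mar D q z ^ 2)]
      exact mul_le_of_le_one_right (by positivity) (enc_abs b _)
    · have h1 := (prim_hasDeriv hN hD (ne_of_mar_pos hpos)).continuousAt
      exact ((mar_cont hD q).pow 2).continuousAt.mul
        (ContinuousAt.comp (f := prim N D q) (g := enc b) (enc_cont b).continuousAt h1)

lemma prim_lip {N D N' D' : ℝ → ℝ} {C η : ℝ} (hC : 0 ≤ C) (hη : 0 ≤ η)
    (hN : Continuous N) (hD : Continuous D) (hN' : Continuous N') (hD' : Continuous D')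
    (hNC : ∀ t, |N t| ≤ C) (hDC : ∀ t, |D t| ≤ C)
    (hNN : ∀ t, |N t - N' t| ≤ C * η) (hDD : ∀ t, |D t - D' t| ≤ C * η)
    {q y : ℝ} (h1 : 0 < mar D q y) (h2 : 0 < mar D' q y) :
    mar D q y * mar D' q y * |prim N D q y - prim N' D' q y| ≤ 2 * C ^ 2 * η * |y - q| := by
  have e : prim N D q y - prim N' D' q y = ∫ t in q..y, (N t / D t - N' t / D' t) := by
    unfold prim
    rw [intervalIntegral.integral_sub (quot_int hN hD (ne_of_mar_pos h1))
      (quot_int hN' hD' (ne_of_mar_pos h2))]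
  have hb : ‖∫ t in q..y, (N t / D t - N' t / D' t)‖
      ≤ (2 * C ^ 2 * η) / (mar D q y * mar D' q y) * |y - q| := by
    apply intervalIntegral.norm_integral_le_of_norm_le_const
    intro t ht
    have ht' : t ∈ uIcc q y := uIoc_subset_uIcc ht
    have d1 := mar_le D ht'
    have d2 := mar_le D' ht'
    have n1 := ne_of_mar_pos h1 t ht'
    have n2 := ne_of_mar_pos h2 t ht'
    have e2 : N t / D t - N' t / D' t
        = (D t * (N t - N' t) - N t * (D t - D' t)) / (D t * D' t) := by
      field_simp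
      ring
    rw [e2, Real.norm_eq_abs, abs_div, abs_mul]
    have num : |D t * (N t - N' t) - N t * (D t - D' t)| ≤ 2 * C ^ 2 * η := by
      refine (abs_sub _ _).trans ?_
      rw [abs_mul, abs_mul]
      have a1 : |D t| * |N t - N' t| ≤ C * (C * η) :=
        mul_le_mul (hDC t) (hNN t) (abs_nonneg _) hC
      have a2 : |N t| * |D t - D' t| ≤ C * (C * η) :=
        mul_le_mul (hNC t) (hDD t) (abs_nonneg _) hC
      nlinarith
    have den : mar D q y * mar D' q y ≤ |D t| * |D' t| :=
      mul_le_mul d1 d2 h2.le (abs_nonneg _)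
    exact div_le_div₀ (by positivity) num (mul_pos h1 h2) den
  rw [e]
  rw [Real.norm_eq_abs] at hb
  have hm := mul_pos h1 h2
  calc mar D q y * mar D' q y * |∫ t in q..y, (N t / D t - N' t / D' t)|
      ≤ mar D q y * mar D' q y * ((2 * C ^ 2 * η) / (mar D q y * mar D' q y) * |y - q|) :=
        mul_le_mul_of_nonneg_left hb hm.le
    _ = 2 * C ^ 2 * η * |y - q| := by field_simp

lemma code_lip (b : Bool) {N D N' D' : ℝ → ℝ} {C η : ℝ} (hC : 0 ≤ C) (hη : 0 ≤ η)
    (hN : Continuous N) (hD : Continuous D) (hN' : Continuous N') (hD' : Continuous D')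
    (hNC : ∀ t, |N t| ≤ C) (hDC : ∀ t, |D t| ≤ C) (hDC' : ∀ t, |D' t| ≤ C)
    (hNN : ∀ t, |N t - N' t| ≤ C * η) (hDD : ∀ t, |D t - D' t| ≤ C * η) (q y : ℝ) :
    |code b N D q y - code b N' D' q y| ≤ 2 * C ^ 2 * (1 + |q|) * η := by
  set m1 := mar D q y with hm1
  set m2 := mar D' q y with hm2
  set F1 := prim N D q y with hF1
  set F2 := prim N' D' q y with hF2
  have p1 : 0 ≤ m1 := mar_nonneg _ _ _
  have p2 : 0 ≤ m2 := mar_nonneg _ _ _
  have b1 : m1 ≤ C := mar_le_const hDC q y
  have b2 : m2 ≤ C := mar_le_const hDC' q y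
  have hmm : |m1 - m2| ≤ C * η := mar_lip hDD q y
  have hG : m1 * m2 * |enc b F1 - enc b F2| ≤ 2 * C ^ 2 * η * |y - q| := by
    rcases p1.eq_or_lt with h | h
    · rw [← h]; simp; positivity
    rcases p2.eq_or_lt with h' | h'
    · rw [← h']; simp; positivity
    calc m1 * m2 * |enc b F1 - enc b F2| ≤ m1 * m2 * |F1 - F2| :=
          mul_le_mul_of_nonneg_left (enc_lip b _ _) (by positivity)
      _ ≤ _ := prim_lip hC hη hN hD hN' hD' hNC hDC hNN hDD h h'
  have e : m1 ^ 2 * enc b F1 - m2 ^ 2 * enc b F2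
      = m1 * ((m1 - m2) * enc b F1) + (m1 * m2 * (enc b F1 - enc b F2)
        + m2 * ((m1 - m2) * enc b F2)) := by ring
  have hmain : |m1 ^ 2 * enc b F1 - m2 ^ 2 * enc b F2| ≤ 2 * C ^ 2 * η * (1 + |y - q|) := by
    rw [e]
    refine (abs_add_le _ _).trans ?_
    have c1 : |m1 * ((m1 - m2) * enc b F1)| ≤ C * (C * η) := by
      rw [abs_mul, abs_mul, abs_of_nonneg p1]
      refine mul_le_mul b1 ?_ (by positivity) hC
      exact (mul_le_of_le_one_right (abs_nonneg _) (enc_abs b _)).trans hmm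
    have c2 : |m1 * m2 * (enc b F1 - enc b F2) + m2 * ((m1 - m2) * enc b F2)|
        ≤ 2 * C ^ 2 * η * |y - q| + C * (C * η) := by
      refine (abs_add_le _ _).trans (add_le_add ?_ ?_)
      · rw [abs_mul, abs_of_nonneg (mul_nonneg p1 p2)]
        exact hG
      · rw [abs_mul, abs_mul, abs_of_nonneg p2]
        refine mul_le_mul b2 ?_ (by positivity) hC
        exact (mul_le_of_le_one_right (abs_nonneg _) (enc_abs b _)).trans hmm
    linarith
  unfold code
  rw [← mul_sub, abs_mul, abs_of_pos (w_bound y).1]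
  have hy := abs_nonneg y
  have hq := abs_nonneg q
  calc 1 / (1 + |y|) ^ 2 * |m1 ^ 2 * enc b F1 - m2 ^ 2 * enc b F2|
      ≤ 1 / (1 + |y|) ^ 2 * (2 * C ^ 2 * η * (1 + |y - q|)) :=
        mul_le_mul_of_nonneg_left hmain (w_bound y).1.le
    _ = 2 * C ^ 2 * η * ((1 + |y - q|) / (1 + |y|) ^ 2) := by ring
    _ ≤ 2 * C ^ 2 * η * (1 + |q|) := by
        apply mul_le_mul_of_nonneg_left _ (by positivity)
        rw [div_le_iff₀ (by positivity)]
        have := abs_sub y q
        nlinarith [mul_nonneg hy hq, mul_nonneg hy hy, mul_nonneg (mul_nonneg hy hy) hq]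
    _ = 2 * C ^ 2 * (1 + |q|) * η := by ring

lemma code_ratio {N D : ℝ → ℝ} (hD : Continuous D) {q y : ℝ} (h : ∀ t ∈ uIcc q y, D t ≠ 0) :
    code false N D q y ≠ 0 ∧ code true N D q y / code false N D q y = prim N D q y := by
  have h1 := (w_bound y).1
  have h2 := mar_pos hD h
  obtain ⟨h3, h4⟩ := enc_ratio (prim N D q y)
  unfold code
  refine ⟨by positivity, ?_⟩
  rw [mul_div_mul_left _ _ h1.ne', mul_div_mul_left _ _ (by positivity), h4]


/-- transplant a function from the line to the interval `(-1, 1)` -/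
noncomputable def lift (Φ : ℝ → ℝ) (u : ℝ) : ℝ := if |u| < 1 then Φ (u / (1 - |u|)) else 0

lemma lift_out (Φ : ℝ → ℝ) {u : ℝ} (hu : 1 ≤ |u|) : lift Φ u = 0 := by
  unfold lift
  rw [if_neg (not_lt.mpr hu)]

lemma lift_eq (Φ : ℝ → ℝ) (y : ℝ) : lift Φ (y / (1 + |y|)) = Φ y := by
  have h := abs_nonneg y
  have h1 : |y / (1 + |y|)| = |y| / (1 + |y|) := by
    rw [abs_div, abs_of_pos (by linarith : 0 < 1 + |y|)]
  unfold lift
  rw [h1, if_pos ((div_lt_one (by linarith)).mpr (by linarith))]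
  congr 1
  have h2 : 1 - |y| / (1 + |y|) = 1 / (1 + |y|) := by field_simp; ring
  rw [h2]
  field_simp

lemma lift_bound' {Φ : ℝ → ℝ} {M : ℝ} (h : ∀ y, |Φ y| ≤ M / (1 + |y|)) (hM : 0 ≤ M) (u : ℝ) :
    |lift Φ u| ≤ M * max 0 (1 - |u|) := by
  by_cases hu : |u| < 1
  · unfold lift
    rw [if_pos hu]
    refine (h _).trans ?_
    have h1 : 0 < 1 - |u| := by linarith
    have h2 : |u / (1 - |u|)| = |u| / (1 - |u|) := by rw [abs_div, abs_of_pos h1]
    rw [h2, max_eq_right h1.le]
    have h3 : 1 + |u| / (1 - |u|) = 1 / (1 - |u|) := by field_simp; ring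
    rw [h3]
    have : M / (1 / (1 - |u|)) = M * (1 - |u|) := by field_simp
    rw [this]
  · rw [lift_out Φ (not_lt.mp hu), abs_zero]
    exact mul_nonneg hM (le_max_left _ _)

lemma lift_bound {Φ : ℝ → ℝ} {M : ℝ} (h : ∀ y, |Φ y| ≤ M / (1 + |y|)) (hM : 0 ≤ M) (u : ℝ) :
    |lift Φ u| ≤ M := by
  refine (lift_bound' h hM u).trans ?_
  have : max 0 (1 - |u|) ≤ 1 := max_le zero_le_one (by linarith [abs_nonneg u])
  nlinarith

lemma lift_cont {Φ : ℝ → ℝ} {M : ℝ} (hc : Continuous Φ) (h : ∀ y, |Φ y| ≤ M / (1 + |y|))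
    (hM : 0 ≤ M) : Continuous (lift Φ) := by
  rw [continuous_iff_continuousAt]
  intro u
  by_cases hu : |u| < 1
  · have h1 : ContinuousAt (fun u : ℝ => Φ (u / (1 - |u|))) u := by
      apply ContinuousAt.comp (f := fun u : ℝ => u / (1 - |u|)) (g := Φ) hc.continuousAt
      exact continuousAt_id.div (continuousAt_const.sub continuous_abs.continuousAt) (by linarith)
    apply h1.congr
    have : ∀ᶠ z in nhds u, |z| < 1 := continuous_abs.continuousAt.eventually_lt continuousAt_const hu
    filter_upwards [this] with z hz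
    unfold lift
    rw [if_pos hz]
  · have h0 := lift_out Φ (not_lt.mp hu)
    show Filter.Tendsto _ _ (nhds (lift Φ u))
    rw [h0]
    have hlim : Filter.Tendsto (fun z : ℝ => M * max 0 (1 - |z|)) (nhds u) (nhds 0) := by
      have hcont : Continuous (fun z : ℝ => M * max 0 (1 - |z|)) := by fun_prop
      have := hcont.tendsto u
      rwa [max_eq_left (by linarith [not_lt.mp hu]), mul_zero] at this
    exact squeeze_zero_norm (fun z => lift_bound' h hM z) hlim

lemma lift_lip {Φ Ψ : ℝ → ℝ} {K : ℝ} (hK : 0 ≤ K) (h : ∀ y, |Φ y - Ψ y| ≤ K) (u : ℝ) :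
    |lift Φ u - lift Ψ u| ≤ K := by
  unfold lift
  split_ifs
  · exact h _
  · simpa using hK

/-- the second function: halving, cut off -/
noncomputable def halve (x : ℝ) : ℝ := max (-(1 / 2)) (min (1 / 2) (x / 2))

/-- the third function: a homeomorphism of the line onto `(1/2, 1)` -/
noncomputable def squash (y : ℝ) : ℝ := 3 / 4 + y / (1 + |y|) / 4

/-- cut off at height one -/
noncomputable def clip (x : ℝ) : ℝ := max (-1) (min 1 x)

lemma halve_cont : Continuous halve := by unfold halve; fun_prop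

lemma squash_cont : Continuous squash := by
  unfold squash
  apply Continuous.add continuous_const
  apply Continuous.div_const
  apply Continuous.div continuous_id (by fun_prop)
  intro y
  have := abs_nonneg y
  positivity

lemma clip_cont : Continuous clip := by unfold clip; fun_prop

lemma halve_abs (x : ℝ) : |halve x| ≤ 1 := by
  unfold halve
  rw [abs_le]
  constructor
  · exact le_trans (by norm_num) (le_max_left _ _)
  · exact max_le (by norm_num) ((min_le_left _ _).trans (by norm_num))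

lemma ratio_abs (y : ℝ) : |y / (1 + |y|)| < 1 := by
  have h := abs_nonneg y
  rw [abs_div, abs_of_pos (by linarith : 0 < 1 + |y|), div_lt_one (by linarith)]
  linarith

lemma squash_mem (y : ℝ) : 1 / 2 < squash y ∧ squash y < 1 := by
  have h := abs_lt.mp (ratio_abs y)
  unfold squash
  constructor <;> linarith

lemma clip_abs (x : ℝ) : |clip x| ≤ 1 := by
  unfold clip
  rw [abs_le]
  exact ⟨le_max_left _ _, max_le (by norm_num) (min_le_left _ _)⟩

lemma clip_of_abs {x : ℝ} (hx : |x| ≤ 1) : clip x = x := by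
  have h := abs_le.mp hx
  unfold clip
  rw [min_eq_right h.2, max_eq_right h.1]

lemma clip_lip (x y : ℝ) : |clip x - clip y| ≤ |x - y| := by
  unfold clip
  calc |max (-1) (min 1 x) - max (-1) (min 1 y)| ≤ max |(-1 : ℝ) - -1| |min 1 x - min 1 y| :=
        abs_max_sub_max_le_max _ _ _ _
    _ ≤ |min 1 x - min 1 y| := by simp
    _ ≤ max |(1 : ℝ) - 1| |x - y| := abs_min_sub_min_le_max _ _ _ _
    _ ≤ |x - y| := by simp

/-- the three functions at a point -/
noncomputable def vec (φ : ℝ → ℝ) (t : ℝ) : Fin 3 → ℝ := ![clip (φ t), halve t, squash t]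

lemma vec_cube (φ : ℝ → ℝ) (t : ℝ) : ∀ i, |vec φ t i| ≤ 1 := by
  intro i
  fin_cases i
  · exact clip_abs _
  · exact halve_abs _
  · have := squash_mem t
    show |squash t| ≤ 1
    rw [abs_le]
    constructor <;> linarith

lemma vec_cont {φ : ℝ → ℝ} (hφ : Continuous φ) : ∀ i, Continuous fun t => vec φ t i := by
  intro i
  fin_cases i
  · exact clip_cont.comp hφ
  · exact halve_cont
  · exact squash_cont

lemma vec_lip {φ ψ : ℝ → ℝ} {η : ℝ} (hη : 0 ≤ η) (t : ℝ) (h : |φ t - ψ t| ≤ η) :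
    ∀ i, |vec φ t i - vec ψ t i| ≤ η := by
  intro i
  fin_cases i
  · exact (clip_lip _ _).trans h
  · show |halve t - halve t| ≤ η
    simpa using hη
  · show |squash t - squash t| ≤ η
    simpa using hη

open RatComb

/-- the coding functional -/
noncomputable def cod (b : Bool) (e : RatComb (Fin 3)) (q : ℝ) (φ : ℝ → ℝ) : ℝ → ℝ :=
  code b (fun t => (nd e (vec φ t)).1) (fun t => (nd e (vec φ t)).2) q

lemma exists_M (e : RatComb (Fin 3)) (q : ℝ) : ∃ M : ℝ, 0 ≤ M ∧
    (∀ b φ y, |cod b e q φ y| ≤ M / (1 + |y|)) ∧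
    ∀ b φ ψ η y, Continuous φ → Continuous ψ → 0 ≤ η → (∀ t, |φ t - ψ t| ≤ η) →
      |cod b e q φ y - cod b e q ψ y| ≤ M * η := by
  obtain ⟨⟨C, hC, h1, h2⟩, ⟨D, hD, h3, h4⟩⟩ := nd_BL e
  have hq := abs_nonneg q
  have hK : 0 ≤ C + D := by positivity
  refine ⟨(C + D) ^ 2 + 2 * (C + D) ^ 2 * (1 + |q|), by positivity, ?_, ?_⟩
  · intro b φ y
    have h := code_bound b (N := fun t => (nd e (vec φ t)).1) (D := fun t => (nd e (vec φ t)).2)
      (C := C + D) (fun t => (h3 _ (vec_cube φ t)).trans (by linarith)) q y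
    refine h.trans ?_
    have hy := abs_nonneg y
    gcongr
    have : 0 ≤ 2 * (C + D) ^ 2 * (1 + |q|) := by positivity
    linarith
  · intro b φ ψ η y hφ hψ hη hd
    have c1 := nd_cont (vec φ) (vec_cont hφ) e
    have c2 := nd_cont (vec ψ) (vec_cont hψ) e
    have h := code_lip b (C := C + D) hK hη c1.1 c1.2 c2.1 c2.2
      (fun t => (h1 _ (vec_cube φ t)).trans (by linarith))
      (fun t => (h3 _ (vec_cube φ t)).trans (by linarith))
      (fun t => (h3 _ (vec_cube ψ t)).trans (by linarith))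
      (fun t => (h2 _ _ η (vec_cube φ t) (vec_cube ψ t) (vec_lip hη t (hd t)) hη).trans
        (by nlinarith [mul_nonneg hD hη]))
      (fun t => (h4 _ _ η (vec_cube φ t) (vec_cube ψ t) (vec_lip hη t (hd t)) hη).trans
        (by nlinarith [mul_nonneg hC hη])) q y
    refine h.trans ?_
    have : 0 ≤ (C + D) ^ 2 * η := by positivity
    nlinarith

lemma cod_cont (b : Bool) (e : RatComb (Fin 3)) (q : ℝ) {φ : ℝ → ℝ} (hφ : Continuous φ) :
    Continuous (cod b e q φ) := by
  have c1 := nd_cont (vec φ) (vec_cont hφ) e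
  exact code_cont b c1.1 c1.2 q

theorem exists_fixed (E : ℕ → RatComb (Fin 3) × ℚ) :
    ∃ (δ : ℕ → ℝ) (φ : ℝ → ℝ), Continuous φ ∧ (∀ x, |φ x| ≤ 1) ∧ (∀ j, 0 < δ j) ∧
      ∀ (j : ℕ) (b : Bool) (y : ℝ),
        φ (squash y / 2 ^ (2 * j + b.toNat)) = δ j * cod b (E j).1 (E j).2 φ y := by
  choose M hM0 hM1 hM2 using fun j => exists_M (E j).1 ((E j).2 : ℝ)
  set δ : ℕ → ℝ := fun j => (1 / 8) * (1 / 2) ^ (2 * j + 1) / (1 + M j) with hδdef
  have hδpos : ∀ j, 0 < δ j := by
    intro j
    have := hM0 j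
    simp only [hδdef]
    positivity
  have hδM : ∀ k, δ (k / 2) * M (k / 2) ≤ (1 / 8) * (1 / 2) ^ k := by
    intro k
    have h0 := hM0 (k / 2)
    have h1 : ((1 : ℝ) / 2) ^ (2 * (k / 2) + 1) ≤ (1 / 2) ^ k :=
      pow_le_pow_of_le_one (by norm_num) (by norm_num) (by omega)
    simp only [hδdef]
    rw [div_mul_eq_mul_div, div_le_iff₀ (by linarith)]
    have h2 : (0 : ℝ) < (1 / 2) ^ (2 * (k / 2) + 1) := by positivity
    nlinarith
  set term : (ℝ → ℝ) → ℕ → ℝ → ℝ := fun φ k x =>
    δ (k / 2) * lift (cod (decide (k % 2 = 1)) (E (k / 2)).1 (E (k / 2)).2 φ)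
      (4 * 2 ^ k * x - 3) with hterm
  have hsum : HasSum (fun k : ℕ => (1 / 8 : ℝ) * (1 / 2) ^ k) (1 / 4) := by
    have := (hasSum_geometric_two).mul_left (1 / 8 : ℝ)
    convert! this using 1
    norm_num
  have hbound : ∀ φ k x, ‖term φ k x‖ ≤ (1 / 8 : ℝ) * (1 / 2) ^ k := by
    intro φ k x
    simp only [hterm]
    rw [Real.norm_eq_abs, abs_mul, abs_of_pos (hδpos _)]
    refine le_trans ?_ (hδM k)
    exact mul_le_mul_of_nonneg_left (lift_bound (hM1 _ _ φ) (hM0 _) _) (hδpos _).le
  have hcont : ∀ φ, Continuous φ → ∀ k, Continuous (term φ k) := by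
    intro φ hφ k
    simp only [hterm]
    apply Continuous.mul continuous_const
    exact (lift_cont (cod_cont _ _ _ hφ) (hM1 _ _ φ) (hM0 _)).comp (by fun_prop)
  have hlip : ∀ φ ψ : ℝ → ℝ, Continuous φ → Continuous ψ → ∀ η, 0 ≤ η → (∀ t, |φ t - ψ t| ≤ η) →
      ∀ k x, ‖term φ k x - term ψ k x‖ ≤ (1 / 8 : ℝ) * (1 / 2) ^ k * η := by
    intro φ ψ hφ hψ η hη hd k x
    simp only [hterm]
    rw [← mul_sub, Real.norm_eq_abs, abs_mul, abs_of_pos (hδpos _)]
    have h0 := hM0 (k / 2)
    have h1 := lift_lip (K := M (k / 2) * η) (by positivity)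
      (fun y => hM2 (k / 2) (decide (k % 2 = 1)) φ ψ η y hφ hψ hη hd) (4 * 2 ^ k * x - 3)
    calc _ ≤ δ (k / 2) * (M (k / 2) * η) := mul_le_mul_of_nonneg_left h1 (hδpos _).le
      _ = (δ (k / 2) * M (k / 2)) * η := by ring
      _ ≤ _ := mul_le_mul_of_nonneg_right (hδM k) hη
  let T : BoundedContinuousFunction ℝ ℝ → BoundedContinuousFunction ℝ ℝ := fun φ =>
    BoundedContinuousFunction.ofNormedAddCommGroup (fun x => ∑' k, term φ k x)
      (continuous_tsum (hcont φ φ.continuous) hsum.summable (hbound φ)) (1 / 4)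
      (fun x => tsum_of_norm_bounded hsum (fun k => hbound φ k x))
  have hT : ContractingWith (1 / 2) T := by
    refine ⟨by norm_num, LipschitzWith.of_dist_le_mul fun φ ψ => ?_⟩
    rw [BoundedContinuousFunction.dist_le (by positivity)]
    intro x
    show dist (∑' k, term φ k x) (∑' k, term ψ k x) ≤ _
    rw [dist_eq_norm, ← (Summable.of_norm_bounded hsum.summable (fun k => hbound φ k x)).tsum_sub
      (Summable.of_norm_bounded hsum.summable (fun k => hbound ψ k x))]
    have h1 := tsum_of_norm_bounded (hsum.mul_right (dist φ ψ))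
      (fun k => hlip φ ψ φ.continuous ψ.continuous (dist φ ψ) dist_nonneg
        (fun t => by
          have := φ.dist_coe_le_dist (g := ψ) t
          rwa [Real.dist_eq] at this) k x)
    refine h1.trans ?_
    have : (0 : ℝ) ≤ dist φ ψ := dist_nonneg
    push_cast
    linarith
  obtain ⟨φ, hφ⟩ : ∃ φ, T φ = φ := ⟨_, hT.fixedPoint_isFixedPt⟩
  have hφx : ∀ x, φ x = ∑' k, term φ k x := by
    intro x
    conv_lhs => rw [← hφ]
    rfl
  refine ⟨δ, φ, φ.continuous, ?_, hδpos, ?_⟩
  · intro x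
    rw [hφx]
    have := tsum_of_norm_bounded hsum (fun k => hbound φ k x)
    rw [Real.norm_eq_abs] at this
    linarith
  · intro j b y
    rw [hφx, tsum_eq_single (2 * j + b.toNat)]
    · have hb : b.toNat < 2 := by cases b <;> simp
      have e1 : (2 * j + b.toNat) / 2 = j := by omega
      have e2 : decide ((2 * j + b.toNat) % 2 = 1) = b := by
        cases b <;> simp
      simp only [hterm]
      rw [e1, e2]
      have e3 : 4 * 2 ^ (2 * j + b.toNat) * (squash y / 2 ^ (2 * j + b.toNat)) - 3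
          = y / (1 + |y|) := by
        have h2 : 4 * 2 ^ (2 * j + b.toNat) * (squash y / 2 ^ (2 * j + b.toNat)) = 4 * squash y := by
          field_simp
        rw [h2]
        unfold squash
        ring
      rw [e3, lift_eq]
    · intro k hk
      simp only [hterm]
      rw [lift_out, mul_zero]
      set n := 2 * j + b.toNat with hn
      have hs := squash_mem y
      rcases lt_or_gt_of_ne hk with hlt | hgt
      · -- k < n
        obtain ⟨d, hd⟩ := Nat.exists_eq_add_of_lt hlt
        have e : 4 * 2 ^ k * (squash y / 2 ^ n) = 4 * squash y / 2 ^ (d + 1) := by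
          rw [hd, show k + d + 1 = k + (d + 1) by ring, pow_add (2 : ℝ) k (d + 1)]
          field_simp
        have h2 : (2 : ℝ) ≤ 2 ^ (d + 1) := by
          calc (2 : ℝ) = 2 ^ 1 := by norm_num
            _ ≤ 2 ^ (d + 1) := pow_le_pow_right₀ (by norm_num) (by omega)
        have h3 : 4 * squash y / 2 ^ (d + 1) ≤ 2 := by
          rw [div_le_iff₀ (by positivity)]
          nlinarith
        rw [e, abs_sub_comm]
        refine le_trans ?_ (le_abs_self _)
        linarith
      · -- n < k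
        obtain ⟨d, hd⟩ := Nat.exists_eq_add_of_lt hgt
        have e : 4 * 2 ^ k * (squash y / 2 ^ n) = 4 * squash y * 2 ^ (d + 1) := by
          rw [hd, show n + d + 1 = n + (d + 1) by ring, pow_add (2 : ℝ) n (d + 1)]
          field_simp
        have h2 : (2 : ℝ) ≤ 2 ^ (d + 1) := by
          calc (2 : ℝ) = 2 ^ 1 := by norm_num
            _ ≤ 2 ^ (d + 1) := pow_le_pow_right₀ (by norm_num) (by omega)
        have h3 : 4 ≤ 4 * squash y * 2 ^ (d + 1) := by nlinarith
        rw [e]
        refine le_trans ?_ (le_abs_self _)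
        linarith

/-- Superpositions: the list `[i₁, ..., iₖ]` gives `f i₁ ∘ f i₂ ∘ ... ∘ f iₖ`. -/
def superpose {ι : Type} (f : ι → ℝ → ℝ) : List ι → ℝ → ℝ
  | [], x => x
  | i :: l, x => f i (superpose f l x)

lemma superpose_replicate {ι : Type} (f : ι → ℝ → ℝ) (i : ι) (n : ℕ) (l : List ι) (x : ℝ) :
    superpose f (List.replicate n i ++ l) x = (f i)^[n] (superpose f l x) := by
  induction n with
  | zero => rfl
  | succ n ih =>
    rw [List.replicate_succ, List.cons_append, Function.iterate_succ_apply', ← ih]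
    rfl

lemma halve_iter (n : ℕ) {x : ℝ} (h0 : 0 ≤ x) (h1 : x ≤ 1) : halve^[n] x = x / 2 ^ n := by
  induction n with
  | zero => simp
  | succ n ih =>
    rw [Function.iterate_succ_apply', ih]
    have hp : (1 : ℝ) ≤ 2 ^ n := one_le_pow₀ (by norm_num)
    have h2 : x / 2 ^ n ≤ 1 := (div_le_one (by positivity)).mpr (h1.trans hp)
    have h3 : 0 ≤ x / 2 ^ n := by positivity
    unfold halve
    rw [min_eq_right (by linarith), max_eq_right (by linarith), pow_succ]
    field_simp

/-- The superpositions `f i₁ ∘ ... ∘ f iₖ` with `k ≥ 1`, as a family of functions. -/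
def superpositions {ι : Type} (f : ι → ℝ → ℝ) : {l : List ι // l ≠ []} → ℝ → ℝ :=
  fun l => superpose f l.1

/-- There are finitely many continuous functions `f 0, ..., f (n-1)`, not all zero, such that every
rational combination of them has, on every open interval on which it is defined, an indefinite
integral that is a rational combination of superpositions of the `f i`. -/
theorem result :
    ∃ (n : ℕ) (f : Fin n → ℝ → ℝ), 1 ≤ n ∧ (∀ i, Continuous (f i)) ∧ (∃ i x, f i x ≠ 0) ∧
      ∀ (R : RatComb (Fin n)) (I : Set ℝ), IsOpen I → I.OrdConnected → I.Nonempty →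
        (∀ x ∈ I, R.DefinedAt f x) →
        ∃ F : ℝ → ℝ, (∀ x ∈ I, HasDerivAt F (R.value f x) x) ∧
          ∃ P : RatComb {l : List (Fin n) // l ≠ []},
            ∀ x ∈ I, P.DefinedAt (superpositions f) x ∧ F x = P.value (superpositions f) x := by
  have : Nonempty (RatComb (Fin 3) × ℚ) := ⟨(RatComb.gen 0, 0)⟩
  obtain ⟨E, hE⟩ := exists_surjective_nat (RatComb (Fin 3) × ℚ)
  obtain ⟨δ, φ, hφc, hφ1, hδ, hφ⟩ := exists_fixed E
  set f : Fin 3 → ℝ → ℝ := ![φ, halve, squash] with hf
  have hvec : ∀ t, vec φ t = fun i => f i t := by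
    intro t
    funext i
    fin_cases i
    · exact clip_of_abs (hφ1 t)
    · rfl
    · rfl
  refine ⟨3, f, by norm_num, ?_, ⟨2, 0, ?_⟩, ?_⟩
  · intro i
    fin_cases i
    · exact hφc
    · exact halve_cont
    · exact squash_cont
  · show squash 0 ≠ 0
    have := (squash_mem 0).1
    linarith
  · intro R I hI hconn hne hdef
    obtain ⟨q, hq⟩ : ∃ q : ℚ, (q : ℝ) ∈ I := by
      obtain ⟨q, hq⟩ := Rat.denseRange_cast.exists_mem_open hI hne
      exact ⟨q, hq⟩
    obtain ⟨j, hj⟩ := hE (R, q)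
    have c1 := nd_cont (vec φ) (vec_cont hφc) R
    have hne0 : ∀ x ∈ I, (nd R (vec φ x)).2 ≠ 0 := by
      intro x hx
      rw [hvec]
      exact (nd_spec f R x).1.mp (hdef x hx)
    have hsub : ∀ x ∈ I, ∀ t ∈ uIcc (q : ℝ) x, (nd R (vec φ t)).2 ≠ 0 := by
      intro x hx t ht
      exact hne0 t (hconn.uIcc_subset hq hx ht)
    refine ⟨prim (fun t => (nd R (vec φ t)).1) (fun t => (nd R (vec φ t)).2) q, ?_, ?_⟩
    · intro x hx
      have h := prim_hasDeriv c1.1 c1.2 (hsub x hx)
      rw [(nd_spec f R x).2 (hdef x hx), ← hvec]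
      exact h
    · set l : ℕ → {l : List (Fin 3) // l ≠ []} := fun k =>
        ⟨0 :: (List.replicate k 1 ++ [2]), List.cons_ne_nil _ _⟩ with hl
      have hval : ∀ (b : Bool) (x : ℝ), superpositions f (l (2 * j + b.toNat)) x
          = δ j * cod b R q φ x := by
        intro b x
        have e1 : superpositions f (l (2 * j + b.toNat)) x
            = φ (halve^[2 * j + b.toNat] (squash x)) := by
          show f 0 (superpose f (List.replicate (2 * j + b.toNat) 1 ++ [2]) x) = _
          rw [superpose_replicate]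
          rfl
        have hs := squash_mem x
        rw [e1, halve_iter _ (by linarith) hs.2.le, hφ j b x, hj]
      refine ⟨RatComb.div (RatComb.gen (l (2 * j + true.toNat)))
        (RatComb.gen (l (2 * j + false.toNat))), ?_⟩
      intro x hx
      obtain ⟨r1, r2⟩ := code_ratio (N := fun t => (nd R (vec φ t)).1)
        (D := fun t => (nd R (vec φ t)).2) c1.2 (hsub x hx)
      have hδj := (hδ j).ne'
      refine ⟨⟨trivial, trivial, ?_⟩, ?_⟩
      · show superpositions f (l (2 * j + false.toNat)) x ≠ 0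
        rw [hval]
        exact mul_ne_zero hδj r1
      · show _ = superpositions f (l (2 * j + true.toNat)) x
          / superpositions f (l (2 * j + false.toNat)) x
        rw [hval, hval, mul_div_mul_left _ _ hδj]
        exact r2.symm

end Pool.Agent.Results.MP_75b936_an.SelfIntegrating
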